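import Pool.Agent.H11.EN.All

/-!
# Cyclic coverings of even degree: the 2-Selmer set is empty for 100% of ALL locally soluble twists

Let `g ∈ ℤ[x]` have degree `n ≥ 6`, let `m ≥ 4` be an even divisor of `n`, and let `h i ∈ ℤ[x]` (`i ∈ I`,
`I` finite, possibly empty) be polynomials of positive even degrees such that `g * ∏ i, h i` is separable.
Let `G` and `H i` be the homogenisations. Let

  `Z : z i ² = H i (x, w)` (all `i`), `X_D : D y ^ m = G(x, w)`, `z i ² = H i (x, w)` (all `i`).

`Z` is a smooth curve, a `(2, .., 2)`-covering of the projective line (the line itself if `I` is empty), and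
`X_D → Z` is a cyclic covering of degree `m`, totally ramified over the points of `Z` above the zeros of
`g`. The `X_D`, `D` an `m`-th power free integer, are all the twists of `X_1 → Z` by classes of
`ℚ* / (ℚ*) ^ m`, each one once. If `I` is empty they are the superelliptic curves `D y ^ m = G(x, w)`.

Suppose that for every factor `q ∈ ℚ[x]` of `g` of degree one or two some automorphism `σ` of the algebraic
closure of `ℚ` fixes a point of `Z` above a zero of `g` (a zero `θ` and square roots of all `h i (θ)`), but no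
point of `Z` above a zero of `q`. (If all irreducible factors of `g` have degree at least three there is
nothing to check.)

The curves `x - θ w = δ η²`, `D y ^ m = G(x, w)`, `z i ² = H i (x, w)`, `δ, η ∈ ℚ[X]/(g)`, `θ` the class of
`X`, where `D a N(δ)` is a square (`a` the leading coefficient of `g`, `N` the norm), are (up to
`y ↦ -y`) étale coverings of `X_D`, the pull-backs of the 2-coverings of the hyperelliptic curve
`D v² = G(x, w)`, `v = y ^ (m/2)`.

**Theorem.** There are `δ > 0` and `C` such that for all `X ≥ 3` one of these coverings of `X_D` has points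
everywhere locally for at most `C (log X)^(-δ) E(X)` `m`-th power free `D` with `|D| ≤ X`, where `E(X)` is
the number of the `m`-th power free `D` with `|D| ≤ X` for which `X_D` is everywhere locally soluble. If
there is such a `D`, then `E(X) ≥ X / log X` for large `X`.

So for 100% of the everywhere locally soluble twists `X_D` the 2-Selmer set of `X_D` is empty: a 2-covering
of `X_D` maps to one of these coverings.

Proof. Write `D = D' k²`, `D'` squarefree. The class `δ` belongs to a 2-covering of `D' y² = G(x, w)`, and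
by the large sieve with several scales for the integers of the fields `ℚ(θ k)`, `θ k` the zeros of `g` (see
`AllHyperellipticTwists`, `AllTwistedDoubleCoverings`) the number of these `D'` up to `X` is
`O(X (log X)^(ρ - 1 - δ))`, where `ρ` is the density of the primes modulo which `g` has a zero `r` with all
`h i (r)` squares; now sum over `k`. The number of the everywhere locally soluble `X_D` is at least
`X (log X)^(ρ - 1 - ε)` for all `ε > 0`, if it is not zero: start with one of them, `X_{D₀}`, and multiply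
`D₀` by products of such primes which are `m`-th powers modulo all small primes (and a suitable modulus);
at the other large primes use Weil's bound for sums of mixed characters, for polynomials the gcd of whose
multiplicities is prime to the order of the character.

(helper11, with lemmas of helper1, helper4, helper19, helper57, helper58, helper61, helper67, helper75,
helper82, helper85, helper95.)
-/

set_option autoImplicit false

namespace Pool.Agent.Results.MP_d37f77_nt.AllCyclicCoverings

open Polynomial Finset Filter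

/-- The homogenisation `F(x, w) = ∑ i, a i * x ^ i * w ^ (n - i)` of `f = ∑ i, a i * x ^ i`, where
`n = deg f`. -/
noncomputable def hom (f : ℤ[X]) {R : Type*} [CommRing R] (x w : R) : R :=
  ∑ i ∈ range (f.natDegree + 1), (f.coeff i : R) * x ^ i * w ^ (f.natDegree - i)

/-- The curve `X_D : D * y ^ m = G(x, w)`, `z i ^ 2 = H i (x, w)` has a point over the field `F`. -/
def CurvePoint {I : Type} (m : ℕ) (g : ℤ[X]) (h : I → ℤ[X]) (D : ℤ) (F : Type) [Field F] : Prop :=
  ∃ (x w y : F) (z : I → F), (x ≠ 0 ∨ w ≠ 0) ∧ (D : F) * y ^ m = hom g x w ∧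
    ∀ i, z i ^ 2 = hom (h i) x w

/-- The curve `X_D` has points over `ℝ` and over `ℚ_p` for all primes `p`. -/
def LocallySoluble {I : Type} (m : ℕ) (g : ℤ[X]) (h : I → ℤ[X]) (D : ℤ) : Prop :=
  CurvePoint m g h D ℝ ∧ ∀ (p : ℕ) [Fact p.Prime], CurvePoint m g h D ℚ_[p]

/-- The curve `x - θ w = d(θ) η²`, `D * y ^ m = G(x, w)`, `z i ^ 2 = H i (x, w)` has a point over the field
`F`; here `θ` is the class of `X` in the algebra `F[X]/(g)` and `η = q(θ)` is an element of this algebra. -/
def CoveringPoint {I : Type} (m : ℕ) (g : ℤ[X]) (h : I → ℤ[X]) (D : ℤ) (d : ℚ[X]) (F : Type)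
    [Field F] [CharZero F] : Prop :=
  ∃ (x w y : F) (q : F[X]) (z : I → F), (x ≠ 0 ∨ w ≠ 0) ∧ (D : F) * y ^ m = hom g x w ∧
    g.map (Int.castRingHom F) ∣ C x - C w * X - d.map (Rat.castHom F) * q ^ 2 ∧
    ∀ i, z i ^ 2 = hom (h i) x w

/-- Some covering `x - θ w = d(θ) η²` of `X_D`, where `d(θ)` is invertible in `ℚ[X]/(g)` and
`D * a * N(d(θ))` is a square, has points over `ℝ` and over `ℚ_p` for all primes `p`. -/
def DescentSetNonempty {I : Type} (m : ℕ) (g : ℤ[X]) (h : I → ℤ[X]) (D : ℤ) : Prop :=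
  ∃ d : ℚ[X], IsCoprime (g.map (Int.castRingHom ℚ)) d ∧
    IsSquare (((D * g.leadingCoeff : ℤ) : ℚ) *
      Algebra.norm ℚ (AdjoinRoot.mk (g.map (Int.castRingHom ℚ)) d)) ∧
    CoveringPoint m g h D d ℝ ∧ ∀ (p : ℕ) [Fact p.Prime], CoveringPoint m g h D d ℚ_[p]

/-- The number of the nonzero `D` with `|D| ≤ X`, not divisible by the `m`-th power of a prime, with the
property `P`. -/
noncomputable def count (m : ℕ) (P : ℤ → Prop) (X : ℕ) : ℕ :=
  {D : ℤ | D ≠ 0 ∧ (∀ p : ℕ, p.Prime → ¬ (p : ℤ) ^ m ∣ D) ∧ |D| ≤ X ∧ P D}.ncard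

/-- The automorphism `σ` fixes a zero `θ` of `q` and square roots of all `h i (θ)`. -/
def FixesPoint {I : Type} (σ : AlgebraicClosure ℚ ≃ₐ[ℚ] AlgebraicClosure ℚ) (q : ℚ[X])
    (h : I → ℤ[X]) : Prop :=
  ∃ θ : AlgebraicClosure ℚ, aeval θ q = 0 ∧ σ θ = θ ∧
    ∀ i, ∃ s : AlgebraicClosure ℚ, s ^ 2 = aeval θ (h i) ∧ σ s = s

theorem result (I : Type) [Fintype I] (g : ℤ[X]) (h : I → ℤ[X]) (m : ℕ) (hm : 4 ≤ m)
    (hmev : Even m) (hmn : m ∣ g.natDegree) (hn : 6 ≤ g.natDegree)
    (hh : ∀ i, Even (h i).natDegree ∧ 1 ≤ (h i).natDegree)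
    (hsep : ((g * ∏ i, h i).map (Int.castRingHom ℚ)).Separable)
    (hσ : ∀ q : ℚ[X], q ∣ g.map (Int.castRingHom ℚ) → 1 ≤ q.natDegree → q.natDegree ≤ 2 →
      ∃ σ : AlgebraicClosure ℚ ≃ₐ[ℚ] AlgebraicClosure ℚ,
        FixesPoint σ (g.map (Int.castRingHom ℚ)) h ∧ ¬ FixesPoint σ q h) :
    (∀ D : ℤ, D ≠ 0 → CurvePoint m g h D ℚ → DescentSetNonempty m g h D) ∧
    (∀ D : ℤ, D ≠ 0 → DescentSetNonempty m g h D → LocallySoluble m g h D) ∧
    (∃ δ C : ℝ, 0 < δ ∧ ∀ X : ℕ, 3 ≤ X →
      (count m (DescentSetNonempty m g h) X : ℝ) ≤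
        C * Real.log X ^ (-δ) * (count m (LocallySoluble m g h) X : ℝ)) ∧
    ((∃ D : ℤ, D ≠ 0 ∧ (∀ p : ℕ, p.Prime → ¬ (p : ℤ) ^ m ∣ D) ∧ LocallySoluble m g h D) →
      ∀ᶠ X : ℕ in atTop, (X : ℝ) / Real.log X ≤ (count m (LocallySoluble m g h) X : ℝ)) := by
  classical
  have hcount : ∀ (P : ℤ → Prop) (X : ℕ),
      {D : ℤ | D.natAbs ≤ X ∧ Pool.Agent.H11.EC.MFree m D ∧ P D}.ncard = count m P X := by
    intro P X
    unfold count
    congr 1
    ext D
    simp only [Set.mem_ofPred_eq, Pool.Agent.H11.EC.MFree]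
    have : D.natAbs ≤ X ↔ |D| ≤ (X : ℤ) := by
      rw [Int.abs_eq_natAbs]
      omega
    tauto
  have hev : Even g.natDegree := by
    obtain ⟨a, ha⟩ := hmn
    rw [ha]
    exact hmev.mul_right a
  obtain ⟨h1, h2, ⟨δ, C, hδ, h3⟩, h4⟩ := Pool.Agent.H11.EN.main_thmM I g h hev hn hh hsep hσ m
    (by omega) hmev
  refine ⟨h1, h2, ⟨δ, C, hδ, fun X hX => ?_⟩, fun hex => ?_⟩
  · rw [← hcount, ← hcount]
    exact h3 X hX
  · obtain ⟨D, hD, hDm, hels⟩ := hex
    filter_upwards [h4 ⟨D, ⟨hD, hDm⟩, hels⟩] with X hX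
    rw [← hcount]
    exact hX

end Pool.Agent.Results.MP_d37f77_nt.AllCyclicCoverings
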