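import Pool.Agent.H11.EN.All
import Pool.Agent.H11.EN.Emp

/-!
# The Hasse principle fails for 100% of the locally soluble quadratic twists of hyperelliptic curves

Let `g ∈ ℤ[x]` be a separable polynomial of even degree `n ≥ 6` without rational zeros such that every
quadratic factor `q ∈ ℚ[x]` of `g` has no zero in `ℚ(θ)` for some zero `θ` of `g`. (So `g` may be any
separable polynomial all of whose irreducible factors have degree at least three, for instance an
irreducible polynomial, and any one without rational zeros that has an irreducible factor of odd degree. If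
`g` has a rational zero the twists have rational points.) Let `G(x, w)` be the homogenisation of `g` and
let `C_D : D y² = G(x, w)` be the quadratic twists of the hyperelliptic curve `y² = g(x)` of genus
`n/2 - 1 ≥ 2`.

**Theorem.** There are `δ > 0` and `C` such that for all `X ≥ 3` the 2-Selmer set of `C_D` is nonempty
for at most `C (log X)^(-δ) E(X)` squarefree `D` with `|D| ≤ X`, where `E(X)` is the number of the
squarefree `D` with `|D| ≤ X` for which `C_D` is everywhere locally soluble; and `E(X) ≥ X / log X` for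
large `X`.

So for 100% of the everywhere locally soluble twists `C_D` no 2-covering of `C_D` has points everywhere
locally; in particular `C_D(ℚ)` is empty, `C_D` is a counterexample to the Hasse principle, and this
counterexample is explained by finite descent with `n = 2`.

The 2-coverings of `C_D` are (up to the involution `y ↦ -y`) the curves `x - θ w = δ η²` with
`δ, η ∈ ℚ[X]/(g)`, `θ` the class of `X`, where `D a N(δ)` is a square (`a` the leading coefficient of
`g`, `N` the norm).

Proof. Let `f k` be the irreducible factors of `g`, `L k = ℚ(θ k)`, `θ k` a zero of `f k`. From an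
everywhere locally soluble covering one gets, by the finiteness of the class groups and the unit theorem,
integral elements `α k` of `L k` and integers `D k ≥ 1` with `∏ D k ∣ D` and `|σ (α k)| ≤ C (D k)^(1/n_k)`
for all `σ : L k → ℂ`; they determine `D`, and at all primes `l` outside a finite set all `α k` are units
at `l`, or exactly one prime `v₀` above `l` in one of the fields `L k` contains `α k`, this has degree one,
and for some `c, r ∈ ℤ` with `a θ k ≡ r mod v₀` the numbers `c (α j) (r - a θ j)` are squares modulo all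
other primes above `l` of all the fields `L j`. For the `α` in a dyadic box (`D k ~ Y k`) the primes `l` are
used in a large sieve with several scales: for `l` between `Y j` and `Y k` only the residue classes of the
components `k` with `Y k` larger than `l` are restricted, for fixed values of the other components, which
are units at `l`. If the degrees of the `L k` with `Y k ≥ exp ((log X)^(1-ε))` add up to at least three, this
and Chebotarev's and Mertens' theorems give a sufficiently small number of elements. If they add up to at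
most two, let `q` be the product of these `f k`; `D` has no prime factor between this bound and `X` modulo
which `q` has no zero, and by the hypothesis on `g` there are few such `D` among those whose large prime
factors are primes modulo which `g` has a zero.

(helper11, with lemmas of helper1, helper19, helper57, helper61, helper67, and of helper29, helper31,
helper33, helper44, helper58, helper75, helper82.)
-/

set_option autoImplicit false

namespace Pool.Agent.Results.MP_d37f77_nt.AllHyperellipticTwists

open Polynomial Finset Filter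

/-- The homogenisation `G(x, w) = ∑ i, a i * x ^ i * w ^ (n - i)` of `g = ∑ i, a i * x ^ i`, where
`n = deg g`. -/
noncomputable def hom (g : ℤ[X]) {R : Type*} [CommRing R] (x w : R) : R :=
  ∑ i ∈ range (g.natDegree + 1), (g.coeff i : R) * x ^ i * w ^ (g.natDegree - i)

/-- The curve `C_D : D * y ^ 2 = G(x, w)` has a point over the field `F`. -/
def CurvePoint (g : ℤ[X]) (D : ℤ) (F : Type) [Field F] : Prop :=
  ∃ x w y : F, (x ≠ 0 ∨ w ≠ 0) ∧ (D : F) * y ^ 2 = hom g x w

/-- The curve `C_D` has points over `ℝ` and over `ℚ_p` for all primes `p`. -/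
def LocallySoluble (g : ℤ[X]) (D : ℤ) : Prop :=
  CurvePoint g D ℝ ∧ ∀ (p : ℕ) [Fact p.Prime], CurvePoint g D ℚ_[p]

/-- The curve `x - θ w = d(θ) η²` has a point over the field `F`; here `θ` is the class of `X` in the
algebra `F[X]/(g)` and `η = q(θ)` is an element of this algebra. -/
def CoveringPoint (g : ℤ[X]) (d : ℚ[X]) (F : Type) [Field F] [CharZero F] : Prop :=
  ∃ (x w : F) (q : F[X]), (x ≠ 0 ∨ w ≠ 0) ∧
    g.map (Int.castRingHom F) ∣ C x - C w * X - d.map (Rat.castHom F) * q ^ 2

/-- The 2-Selmer set of `C_D` is nonempty: some 2-covering `x - θ w = d(θ) η²` of `C_D`, where `d(θ)` is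
invertible in `ℚ[X]/(g)` and `D * a * N(d(θ))` is a square, has points over `ℝ` and over `ℚ_p` for all
primes `p`. -/
def SelmerNonempty (g : ℤ[X]) (D : ℤ) : Prop :=
  ∃ d : ℚ[X], IsCoprime (g.map (Int.castRingHom ℚ)) d ∧
    IsSquare (((D * g.leadingCoeff : ℤ) : ℚ) *
      Algebra.norm ℚ (AdjoinRoot.mk (g.map (Int.castRingHom ℚ)) d)) ∧
    CoveringPoint g d ℝ ∧ ∀ (p : ℕ) [Fact p.Prime], CoveringPoint g d ℚ_[p]

/-- The number of the squarefree `D` with `|D| ≤ X` and the property `P`. -/
noncomputable def count (P : ℤ → Prop) (X : ℕ) : ℕ :=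
  {D : ℤ | Squarefree D ∧ |D| ≤ X ∧ P D}.ncard

theorem curve_iff (g : ℤ[X]) (h : Empty → ℤ[X]) (D : ℤ) (F : Type) [Field F] :
    Pool.Agent.H11.EC.CurvePt g h D F ↔ CurvePoint g D F := by
  constructor
  · rintro ⟨x, w, y, z, h1, h2, h3⟩
    exact ⟨x, w, y, h1, h2⟩
  · rintro ⟨x, w, y, h1, h2⟩
    exact ⟨x, w, y, fun i => i.elim, h1, h2, fun i => i.elim⟩

theorem cov_iff (g : ℤ[X]) (h : Empty → ℤ[X]) (d : ℚ[X]) (F : Type) [Field F] [CharZero F] :
    Pool.Agent.H11.EC.CovPt g h d F ↔ CoveringPoint g d F := by
  constructor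
  · rintro ⟨x, w, q, z, h1, h2, h3⟩
    exact ⟨x, w, q, h1, h2⟩
  · rintro ⟨x, w, q, h1, h2⟩
    exact ⟨x, w, q, fun i => i.elim, h1, h2, fun i => i.elim⟩

theorem els_iff (g : ℤ[X]) (h : Empty → ℤ[X]) (D : ℤ) :
    Pool.Agent.H11.EC.ELS g h D ↔ LocallySoluble g D :=
  and_congr (curve_iff g h D ℝ) (forall_congr' fun p => forall_congr' fun _ => curve_iff g h D ℚ_[p])

theorem sel_iff (g : ℤ[X]) (h : Empty → ℤ[X]) (D : ℤ) :
    Pool.Agent.H11.EC.Sel g h D ↔ SelmerNonempty g D :=
  exists_congr fun d => and_congr Iff.rfl (and_congr Iff.rfl (and_congr (cov_iff g h d ℝ)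
    (forall_congr' fun p => forall_congr' fun _ => cov_iff g h d ℚ_[p])))

theorem result (g : ℤ[X]) (hev : Even g.natDegree) (hn : 6 ≤ g.natDegree)
    (hsep : (g.map (Int.castRingHom ℚ)).Separable) (hrat : ∀ x : ℚ, aeval x g ≠ 0)
    (hquad : ∀ q : ℚ[X], q ∣ g.map (Int.castRingHom ℚ) → q.natDegree = 2 →
      ∃ θ : AlgebraicClosure ℚ, aeval θ g = 0 ∧
        ∀ η ∈ IntermediateField.adjoin ℚ {θ}, aeval η q ≠ 0) :
    (∀ D : ℤ, D ≠ 0 → CurvePoint g D ℚ → SelmerNonempty g D) ∧
    (∀ D : ℤ, D ≠ 0 → SelmerNonempty g D → LocallySoluble g D) ∧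
    (∃ δ C : ℝ, 0 < δ ∧ ∀ X : ℕ, 3 ≤ X →
      (count (SelmerNonempty g) X : ℝ) ≤
        C * Real.log X ^ (-δ) * (count (LocallySoluble g) X : ℝ)) ∧
    ∀ᶠ X : ℕ in atTop, (X : ℝ) / Real.log X ≤ (count (LocallySoluble g) X : ℝ) := by
  classical
  have hcount : ∀ (P : ℤ → Prop) (X : ℕ),
      {D : ℤ | D.natAbs ≤ X ∧ Squarefree D ∧ P D}.ncard = count P X := by
    intro P X
    unfold count
    congr 1
    ext D
    simp only [Set.mem_ofPred_eq]
    have : D.natAbs ≤ X ↔ |D| ≤ (X : ℤ) := by
      rw [Int.abs_eq_natAbs]
      omega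
    tauto
  obtain ⟨h1, h2, ⟨δ, C, hδ, h3⟩, h4⟩ := Pool.Agent.H11.EN.main_thm Empty g (fun i => i.elim) hev hn
    (fun i => i.elim) (by simpa using hsep) (Pool.Agent.H11.EN.hg_of g hrat hquad _)
  simp only [curve_iff, els_iff, sel_iff] at h1 h2 h3 h4
  refine ⟨h1, h2, ⟨δ, C, hδ, fun X hX => ?_⟩, ?_⟩
  · rw [← hcount, ← hcount]
    exact h3 X hX
  · have h0 : g.coeff 0 ≠ 0 := by
      intro h0
      apply hrat 0
      rw [← coeff_zero_eq_aeval_zero', h0, map_zero]
    obtain ⟨D', k, hD', hk⟩ := Pool.Agent.H11.EC.sqf_dec (g.coeff 0) h0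
    have hD0 : D' ≠ 0 := hD'.ne_zero
    have hpt : CurvePoint g D' ℚ := by
      refine ⟨0, 1, k, Or.inr one_ne_zero, ?_⟩
      have h5 : hom g (0 : ℚ) 1 = (g.coeff 0 : ℚ) := by
        unfold hom
        rw [Finset.sum_eq_single 0]
        · simp
        · intro i _ hi
          rw [zero_pow hi]
          ring
        · intro h
          exact absurd (Finset.mem_range.2 (Nat.succ_pos _)) h
      rw [h5, hk]
      push_cast
      ring
    filter_upwards [h4 ⟨D', hD', h2 D' hD0 (h1 D' hD0 hpt)⟩] with X hX
    rw [← hcount]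
    exact hX

end Pool.Agent.Results.MP_d37f77_nt.AllHyperellipticTwists
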