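import Pool.Agent.H11.EN.All

/-!
# The descent set is empty for 100% of the locally soluble twists of a double covering

Let `g ∈ ℤ[x]` have even degree `n ≥ 6`, and let `h i ∈ ℤ[x]` (`i ∈ I`, `I` finite and nonempty) be
polynomials of positive even degrees such that `g * ∏ i, h i` is separable. Let `G` and `H i` be the
homogenisations. Let

  `Z : z i ² = H i (x, w)` (all `i`), `X_D : D y² = G(x, w)`, `z i ² = H i (x, w)` (all `i`).

`Z` is a smooth curve, a `(2, .., 2)`-covering of the projective line, and `X_D → Z` is the quadratic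
twist by `D` of the double covering `X_1 → Z`, which is branched over the points of `Z` above the zeros
of `g`. The quotient of `X_D` by the automorphisms `z i ↦ ± z i` is the hyperelliptic curve
`C_D : D y² = G(x, w)`. The genus of `X_D` is at least five, and `X_D` is not hyperelliptic if the genus of
`Z` is positive, that is, if the sum of the degrees of the `h i` is at least four (Castelnuovo-Severi).

Suppose that for every factor `q ∈ ℚ[x]` of `g` of degree one or two some automorphism `σ` of the algebraic
closure of `ℚ` fixes a point of `Z` above a zero of `g` (a zero `θ` and square roots of all `h i (θ)`), but no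
point of `Z` above a zero of `q`. (If all irreducible factors of `g` have degree at least three there is
nothing to check.)

The curves `x - θ w = δ η²`, `z i ² = H i (x, w)`, `δ, η ∈ ℚ[X]/(g)`, `θ` the class of `X`, where
`D a N(δ)` is a square (`a` the leading coefficient of `g`, `N` the norm), are (up to `y ↦ -y`) étale
coverings of `X_D`, the pull-backs of the 2-coverings of `C_D`.

**Theorem.** There are `δ > 0` and `C` such that for all `X ≥ 3` one of these coverings of `X_D` has points
everywhere locally for at most `C (log X)^(-δ) E(X)` squarefree `D` with `|D| ≤ X`, where `E(X)` is the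
number of the squarefree `D` with `|D| ≤ X` for which `X_D` is everywhere locally soluble. If there is such
a `D`, then `E(X) ≥ X / log X` for large `X`.

So for 100% of the everywhere locally soluble twists `X_D` the 2-Selmer set of `X_D` is empty: a 2-covering
of `X_D` maps to one of these coverings.

Proof. As for `AllHyperellipticTwists` (which is about `C_D`, the case where `I` is empty). A prime `p ∣ D`
(outside a finite set) divides `g(r)` for an `r` for which all `h i (r)` are squares modulo `p`. The
elements `α k` of the fields `L k = ℚ(θ k)` that belong to a covering with points everywhere locally are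
also units at all primes `l` for which there is no such `r`. So the large sieve gives the upper bound
`X (log X)^(ρ - 1 - δ)`, where `ρ` is the density of the primes for which there is such an `r`; it may be
much smaller than the density of the primes modulo which `g` has a zero. The number of the `X_D` with
points everywhere locally is at least `X (log X)^(ρ - 1 - ε)` for all `ε > 0`, if it is not zero: start with
one of them, `X_{D₀}`, and multiply `D₀` by products of such primes which are squares modulo all small
primes; at the other large primes use Weil's bound for character sums.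

(helper11, with lemmas of helper1, helper19, helper57, helper58, helper61, helper67, helper75, helper82.)
-/

set_option autoImplicit false

namespace Pool.Agent.Results.MP_d37f77_nt.AllTwistedDoubleCoverings

open Polynomial Finset Filter

/-- The homogenisation `F(x, w) = ∑ i, a i * x ^ i * w ^ (n - i)` of `f = ∑ i, a i * x ^ i`, where
`n = deg f`. -/
noncomputable def hom (f : ℤ[X]) {R : Type*} [CommRing R] (x w : R) : R :=
  ∑ i ∈ range (f.natDegree + 1), (f.coeff i : R) * x ^ i * w ^ (f.natDegree - i)

/-- The curve `X_D : D * y ^ 2 = G(x, w)`, `z i ^ 2 = H i (x, w)` has a point over the field `F`. -/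
def CurvePoint {I : Type} (g : ℤ[X]) (h : I → ℤ[X]) (D : ℤ) (F : Type) [Field F] : Prop :=
  ∃ (x w y : F) (z : I → F), (x ≠ 0 ∨ w ≠ 0) ∧ (D : F) * y ^ 2 = hom g x w ∧
    ∀ i, z i ^ 2 = hom (h i) x w

/-- The curve `X_D` has points over `ℝ` and over `ℚ_p` for all primes `p`. -/
def LocallySoluble {I : Type} (g : ℤ[X]) (h : I → ℤ[X]) (D : ℤ) : Prop :=
  CurvePoint g h D ℝ ∧ ∀ (p : ℕ) [Fact p.Prime], CurvePoint g h D ℚ_[p]

/-- The curve `x - θ w = d(θ) η²`, `z i ^ 2 = H i (x, w)` has a point over the field `F`; here `θ` is the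
class of `X` in the algebra `F[X]/(g)` and `η = q(θ)` is an element of this algebra. -/
def CoveringPoint {I : Type} (g : ℤ[X]) (h : I → ℤ[X]) (d : ℚ[X]) (F : Type) [Field F]
    [CharZero F] : Prop :=
  ∃ (x w : F) (q : F[X]) (z : I → F), (x ≠ 0 ∨ w ≠ 0) ∧
    g.map (Int.castRingHom F) ∣ C x - C w * X - d.map (Rat.castHom F) * q ^ 2 ∧
    ∀ i, z i ^ 2 = hom (h i) x w

/-- Some covering `x - θ w = d(θ) η²`, `z i ^ 2 = H i (x, w)` of `X_D`, where `d(θ)` is invertible in
`ℚ[X]/(g)` and `D * a * N(d(θ))` is a square, has points over `ℝ` and over `ℚ_p` for all primes `p`. -/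
def DescentSetNonempty {I : Type} (g : ℤ[X]) (h : I → ℤ[X]) (D : ℤ) : Prop :=
  ∃ d : ℚ[X], IsCoprime (g.map (Int.castRingHom ℚ)) d ∧
    IsSquare (((D * g.leadingCoeff : ℤ) : ℚ) *
      Algebra.norm ℚ (AdjoinRoot.mk (g.map (Int.castRingHom ℚ)) d)) ∧
    CoveringPoint g h d ℝ ∧ ∀ (p : ℕ) [Fact p.Prime], CoveringPoint g h d ℚ_[p]

/-- The number of the squarefree `D` with `|D| ≤ X` and the property `P`. -/
noncomputable def count (P : ℤ → Prop) (X : ℕ) : ℕ :=
  {D : ℤ | Squarefree D ∧ |D| ≤ X ∧ P D}.ncard

/-- The automorphism `σ` fixes a zero `θ` of `q` and square roots of all `h i (θ)`. -/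
def FixesPoint {I : Type} (σ : AlgebraicClosure ℚ ≃ₐ[ℚ] AlgebraicClosure ℚ) (q : ℚ[X])
    (h : I → ℤ[X]) : Prop :=
  ∃ θ : AlgebraicClosure ℚ, aeval θ q = 0 ∧ σ θ = θ ∧
    ∀ i, ∃ s : AlgebraicClosure ℚ, s ^ 2 = aeval θ (h i) ∧ σ s = s

theorem result (I : Type) [Fintype I] [Nonempty I] (g : ℤ[X]) (h : I → ℤ[X])
    (hev : Even g.natDegree) (hn : 6 ≤ g.natDegree)
    (hh : ∀ i, Even (h i).natDegree ∧ 1 ≤ (h i).natDegree)
    (hsep : ((g * ∏ i, h i).map (Int.castRingHom ℚ)).Separable)
    (hσ : ∀ q : ℚ[X], q ∣ g.map (Int.castRingHom ℚ) → 1 ≤ q.natDegree → q.natDegree ≤ 2 →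
      ∃ σ : AlgebraicClosure ℚ ≃ₐ[ℚ] AlgebraicClosure ℚ,
        FixesPoint σ (g.map (Int.castRingHom ℚ)) h ∧ ¬ FixesPoint σ q h) :
    (∀ D : ℤ, D ≠ 0 → CurvePoint g h D ℚ → DescentSetNonempty g h D) ∧
    (∀ D : ℤ, D ≠ 0 → DescentSetNonempty g h D → LocallySoluble g h D) ∧
    (∃ δ C : ℝ, 0 < δ ∧ ∀ X : ℕ, 3 ≤ X →
      (count (DescentSetNonempty g h) X : ℝ) ≤
        C * Real.log X ^ (-δ) * (count (LocallySoluble g h) X : ℝ)) ∧
    ((∃ D : ℤ, Squarefree D ∧ LocallySoluble g h D) →
      ∀ᶠ X : ℕ in atTop, (X : ℝ) / Real.log X ≤ (count (LocallySoluble g h) X : ℝ)) := by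
  classical
  have hcount : ∀ (P : ℤ → Prop) (X : ℕ),
      {D : ℤ | D.natAbs ≤ X ∧ Squarefree D ∧ P D}.ncard = count P X := by
    intro P X
    unfold count
    congr 1
    ext D
    simp only [Set.mem_ofPred_eq]
    have : D.natAbs ≤ X ↔ |D| ≤ (X : ℤ) := by
      rw [Int.abs_eq_natAbs]
      omega
    tauto
  obtain ⟨h1, h2, ⟨δ, C, hδ, h3⟩, h4⟩ := Pool.Agent.H11.EN.main_thm I g h hev hn hh hsep hσ
  refine ⟨h1, h2, ⟨δ, C, hδ, fun X hX => ?_⟩, fun hex => ?_⟩
  · rw [← hcount, ← hcount]
    exact h3 X hX
  · filter_upwards [h4 hex] with X hX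
    rw [← hcount]
    exact hX

end Pool.Agent.Results.MP_d37f77_nt.AllTwistedDoubleCoverings
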